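import Mathlib
import Pool.Agent.Helper92.PU.RowK
import Pool.Agent.Helper48.PU.Pat

/-!
# PU, LEAF ROW, part 1: from `Row` to `RK`
-/

set_option autoImplicit false

namespace Pool.Agent.Helper73.PU

open Pool.Agent.Helper92.SS
open Pool.Agent.Helper92.PU
open Pool.Agent.Helper48.PU
open scoped ComplexConjugate

/-- Shift of the second coordinate of the frequency by a multiple of `q ^ m`. -/
theorem ch_shift {p N q m : ℕ} (hq : 0 < q) (l g : ℤ × ℤ) (s : ℤ) :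
    ch p N q (m + 1) l (g.1, g.2 + s * (q : ℤ) ^ m) = ch p N q (m + 1) l g * ec q (s * l.2) := by
  unfold ch
  simp only
  rw [mul_add, ec_add]
  have h := ec_mul_right (d := q) (e := q ^ m) (pow_pos hq m) (s * l.2)
  have h2 : q * q ^ m = q ^ (m + 1) := by rw [pow_succ, mul_comm]
  rw [h2, Nat.cast_pow] at h
  rw [← h, mul_assoc]
  congr 2
  ring_nf

/-- A set in one `q`-digit: the shift is a root of unity. -/
theorem sm_move {p N q m : ℕ} (hp : 0 < p) (hq : 0 < q) {S : Finset (ℤ × ℤ)} {e : ℤ}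
    (hS : ∀ l ∈ S, (q : ℤ) ∣ l.2 - e) {g g' : ℤ × ℤ} {s : ℤ}
    (h1 : (p : ℤ) ^ N ∣ g'.1 - g.1) (h2 : (q : ℤ) ^ (m + 1) ∣ g'.2 - (g.2 + s * (q : ℤ) ^ m)) :
    sm p N q (m + 1) S g' = ec q (s * e) * sm p N q (m + 1) S g := by
  unfold sm
  rw [Finset.mul_sum]
  refine Finset.sum_congr rfl fun l hl => ?_
  have e1 : ch p N q (m + 1) l g' = ch p N q (m + 1) l (g.1, g.2 + s * (q : ℤ) ^ m) :=
    ch_congr hp hq (by simp) (by simp) h1 h2
  rw [e1, ch_shift hq, mul_comm]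
  congr 1
  apply ec_congr hq
  rw [← mul_sub]
  exact (hS l hl).mul_left s

/-- Inversion over the shifts. -/
theorem inv_row {p N q m : ℕ} (hq : 0 < q) (S : Finset (ℤ × ℤ)) (e : ℤ) (g : ℤ × ℤ) :
    (q : ℂ) * sm p N q (m + 1) (S.filter fun l => (q : ℤ) ∣ l.2 - e) g =
      ∑ t ∈ Finset.range q, ec q (-((t : ℤ) * e)) *
        sm p N q (m + 1) S (g.1, g.2 + (t : ℤ) * (q : ℤ) ^ m) := by
  have h1 : ∀ t : ℕ, ec q (-((t : ℤ) * e)) *
      sm p N q (m + 1) S (g.1, g.2 + (t : ℤ) * (q : ℤ) ^ m) =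
      ∑ l ∈ S, ch p N q (m + 1) l g * ec q ((t : ℤ) * (l.2 - e)) := by
    intro t
    unfold sm
    rw [Finset.mul_sum]
    refine Finset.sum_congr rfl fun l _ => ?_
    rw [ch_shift hq, mul_sub, sub_eq_add_neg ((t : ℤ) * l.2), ec_add]
    ring
  rw [Finset.sum_congr rfl fun t _ => h1 t, Finset.sum_comm]
  have h2 : ∀ l ∈ S, ∑ t ∈ Finset.range q, ch p N q (m + 1) l g * ec q ((t : ℤ) * (l.2 - e)) =
      if (q : ℤ) ∣ l.2 - e then (q : ℂ) * ch p N q (m + 1) l g else 0 := by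
    intro l _
    rw [← Finset.mul_sum, sum_ec hq]
    split_ifs
    · ring
    · rw [mul_zero]
  rw [Finset.sum_congr rfl h2, ← Finset.sum_filter, ← Finset.mul_sum]
  rfl

section part1

variable {p n q m r : ℕ} {ca cl : ℤ × ℤ → ZMod r} {A L : Finset (ℤ × ℤ)}
  {d0 e0 : ℤ} {c0 : ZMod r} {k b : ℕ}

/-- The arm. -/
def QQ (q : ℕ) {r : ℕ} (cl : ℤ × ℤ → ZMod r) (L : Finset (ℤ × ℤ)) (e0 : ℤ) (c0 : ZMod r) :
    Finset (ℤ × ℤ) := (kl cl L c0).filter fun l => (q : ℤ) ∣ l.2 - (e0 + 1)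

theorem not_both {q : ℕ} (hq : q.Prime) {z e0 : ℤ} (h1 : (q : ℤ) ∣ z - e0)
    (h2 : (q : ℤ) ∣ z - (e0 + 1)) : False := by
  have h3 := dvd_sub h1 h2
  have h4 : z - e0 - (z - (e0 + 1)) = 1 := by ring
  rw [h4] at h3
  exact (Nat.prime_iff_prime_int.1 hq).not_isUnit (isUnit_of_dvd_one h3)

theorem QQ_eq (h : Row p n q m ca cl A L d0 e0 c0 k b) :
    QQ q cl L e0 c0 = L.filter fun l => (q : ℤ) ∣ l.2 - (e0 + 1) := by
  unfold QQ kl
  rw [Finset.filter_filter]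
  refine Finset.filter_congr fun l hl => ?_
  constructor
  · exact fun h1 => h1.2
  · intro h1
    refine ⟨?_, h1⟩
    by_contra hc
    exact not_both h.hq (h.cen l hl hc).2 h1

theorem C_empty (h : Row p n q m ca cl A L d0 e0 c0 k b) {c : ZMod r} (hc : c ≠ c0) :
    ((kl cl L c).filter fun l => (q : ℤ) ∣ l.2 - (e0 + 1)) = ∅ := by
  rw [Finset.filter_eq_empty_iff]
  intro l hl h1
  obtain ⟨h2, h3⟩ := mem_kl.1 hl
  exact not_both h.hq (h.cen l h2 (by rw [h3]; exact hc)).2 h1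

/-- The relation at the offset `t`. -/
theorem rel_t (h : Row p n q m ca cl A L d0 e0 c0 k b) {a a' a1 : ℤ × ℤ} {t : ℤ}
    (ha1 : a1 ∈ A) (ha' : a' ∈ A) (hc : ca a1 ≠ ca a')
    (h1 : (p : ℤ) ^ (n + 1) ∣ a1.1 - a.1)
    (h2 : (q : ℤ) ^ (m + 1) ∣ a1.2 - (a.2 + t * (q : ℤ) ^ m)) (y y' : ZMod r) :
    sm p (n + 1) q (m + 1) (kl cl L y) ((a - a').1, (a - a').2 + t * (q : ℤ) ^ m) =
      sm p (n + 1) q (m + 1) (kl cl L y') ((a - a').1, (a - a').2 + t * (q : ℤ) ^ m) := by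
  have e := h.cp.a.2 a1 ha1 a' ha' hc y y'
  have e2 : ∀ S : Finset (ℤ × ℤ), sm p (n + 1) q (m + 1) S (a1 - a') =
      sm p (n + 1) q (m + 1) S ((a - a').1, (a - a').2 + t * (q : ℤ) ^ m) := by
    intro S
    unfold sm
    refine Finset.sum_congr rfl fun l _ => ?_
    refine ch_congr h.hp.pos h.hq.pos (by simp) (by simp) ?_ ?_
    · rw [Prod.fst_sub]
      simp only [Prod.fst_sub]
      have e3 : a1.1 - a'.1 - (a.1 - a'.1) = a1.1 - a.1 := by ring
      rw [e3]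
      exact h1
    · rw [Prod.snd_sub]
      simp only [Prod.snd_sub]
      have e3 : a1.2 - a'.2 - (a.2 - a'.2 + t * (q : ℤ) ^ m) =
          a1.2 - (a.2 + t * (q : ℤ) ^ m) := by ring
      rw [e3]
      exact h2
  rw [← e2, ← e2]
  exact e

/-- The key identity. -/
theorem key (h : Row p n q m ca cl A L d0 e0 c0 k b) {c : ZMod r} (hc : c ≠ c0) {g : ℤ × ℤ}
    (hg : ∀ t ∈ Finset.range q, t ≠ 0 →
      sm p (n + 1) q (m + 1) (kl cl L c0) (g.1, g.2 + (t : ℤ) * (q : ℤ) ^ m) =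
      sm p (n + 1) q (m + 1) (kl cl L c) (g.1, g.2 + (t : ℤ) * (q : ℤ) ^ m)) :
    (q : ℂ) * sm p (n + 1) q (m + 1) (QQ q cl L e0 c0) g =
      sm p (n + 1) q (m + 1) (kl cl L c0) g - sm p (n + 1) q (m + 1) (kl cl L c) g := by
  have h1 := inv_row (p := p) (N := n + 1) (m := m) h.hq.pos (kl cl L c0) (e0 + 1) g
  have h2 := inv_row (p := p) (N := n + 1) (m := m) h.hq.pos (kl cl L c) (e0 + 1) g
  rw [C_empty h hc] at h2
  have h3 : sm p (n + 1) q (m + 1) (∅ : Finset (ℤ × ℤ)) g = 0 := by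
    unfold sm
    exact Finset.sum_empty
  rw [h3, mul_zero] at h2
  have h4 : (q : ℂ) * sm p (n + 1) q (m + 1) (QQ q cl L e0 c0) g =
      ∑ t ∈ Finset.range q, ec q (-((t : ℤ) * (e0 + 1))) *
        (sm p (n + 1) q (m + 1) (kl cl L c0) (g.1, g.2 + (t : ℤ) * (q : ℤ) ^ m) -
          sm p (n + 1) q (m + 1) (kl cl L c) (g.1, g.2 + (t : ℤ) * (q : ℤ) ^ m)) := by
    have h5 : ∑ t ∈ Finset.range q, ec q (-((t : ℤ) * (e0 + 1))) *
        (sm p (n + 1) q (m + 1) (kl cl L c0) (g.1, g.2 + (t : ℤ) * (q : ℤ) ^ m) -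
          sm p (n + 1) q (m + 1) (kl cl L c) (g.1, g.2 + (t : ℤ) * (q : ℤ) ^ m)) =
        ∑ t ∈ Finset.range q, ec q (-((t : ℤ) * (e0 + 1))) *
        sm p (n + 1) q (m + 1) (kl cl L c0) (g.1, g.2 + (t : ℤ) * (q : ℤ) ^ m) -
        ∑ t ∈ Finset.range q, ec q (-((t : ℤ) * (e0 + 1))) *
          sm p (n + 1) q (m + 1) (kl cl L c) (g.1, g.2 + (t : ℤ) * (q : ℤ) ^ m) := by
      rw [← Finset.sum_sub_distrib]
      exact Finset.sum_congr rfl fun t _ => mul_sub _ _ _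
    rw [h5, ← h2, sub_zero]
    exact h1
  rw [h4, Finset.sum_eq_single 0]
  · simp [ec_zero]
  · intro t ht ht0
    rw [hg t ht ht0, sub_self, mul_zero]
  · intro h0
    exact absurd (Finset.mem_range.2 h.hq.pos) h0

/-- Field `N`. -/
theorem rowN (h : Row p n q m ca cl A L d0 e0 c0 k b) {c : ZMod r} (hc : c ≠ c0)
    {a a' : ℤ × ℤ} (ha : a ∈ A) (ha' : a' ∈ A)
    (hN : ∀ b ∈ A, (p : ℤ) ^ (n + 1) ∣ b.1 - a'.1 → (q : ℤ) ^ m ∣ b.2 - a'.2 → ca b ≠ ca a) :
    sm p (n + 1) q (m + 1) (QQ q cl L e0 c0) (a - a') = 0 := by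
  -- the points of the row of `a'`, shifted by `-t`
  have hq0 : (q : ℂ) ≠ 0 := by exact_mod_cast h.hq.pos.ne'
  have hall : ∀ t : ℤ, ∀ y y' : ZMod r,
      sm p (n + 1) q (m + 1) (kl cl L y) ((a - a').1, (a - a').2 + t * (q : ℤ) ^ m) =
      sm p (n + 1) q (m + 1) (kl cl L y') ((a - a').1, (a - a').2 + t * (q : ℤ) ^ m) := by
    intro t y y'
    obtain ⟨b1, hb1, hb2, hb3⟩ := h.line a' ha' (-t)
    have hcb : ca a ≠ ca b1 := by
      refine Ne.symm (hN b1 hb1 hb2 ?_)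
      have e : b1.2 - a'.2 = (b1.2 - (a'.2 + -t * (q : ℤ) ^ m)) + (-t) * (q : ℤ) ^ m := by ring
      rw [e]
      exact dvd_add ((pow_dvd_pow _ (Nat.le_succ m)).trans hb3) (dvd_mul_left _ _)
    have e := h.cp.a.2 a ha b1 hb1 hcb y y'
    have e2 : ∀ S : Finset (ℤ × ℤ), sm p (n + 1) q (m + 1) S (a - b1) =
        sm p (n + 1) q (m + 1) S ((a - a').1, (a - a').2 + t * (q : ℤ) ^ m) := by
      intro S
      unfold sm
      refine Finset.sum_congr rfl fun l _ => ?_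
      refine ch_congr h.hp.pos h.hq.pos (by simp) (by simp) ?_ ?_
      · rw [Prod.fst_sub]
        simp only [Prod.fst_sub]
        have e3 : a.1 - b1.1 - (a.1 - a'.1) = -(b1.1 - a'.1) := by ring
        rw [e3]
        exact (dvd_neg).2 hb2
      · rw [Prod.snd_sub]
        simp only [Prod.snd_sub]
        have e3 : a.2 - b1.2 - (a.2 - a'.2 + t * (q : ℤ) ^ m) =
            -(b1.2 - (a'.2 + -t * (q : ℤ) ^ m)) := by ring
        rw [e3]
        exact (dvd_neg).2 hb3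
    rw [← e2, ← e2]
    exact e
  have h1 := key (c0 := c0) h hc (g := a - a') fun t _ _ => hall t c0 c
  have h2 := hall 0 c0 c
  rw [zero_mul, add_zero] at h2
  have h3 : ((a - a').1, (a - a').2) = a - a' := rfl
  rw [h3] at h2
  rw [h2, sub_self] at h1
  exact (mul_eq_zero.1 h1).resolve_left hq0

/-- Field `S`. -/
theorem rowS (h : Row p n q m ca cl A L d0 e0 c0 k b) {c : ZMod r} (hc : c ≠ c0)
    {a a' : ℤ × ℤ} (ha : a ∈ A) (ha' : a' ∈ A) (hne : a ≠ a') (hca : ca a = ca a') :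
    (q : ℂ) * sm p (n + 1) q (m + 1) (QQ q cl L e0 c0) (a - a') +
      (r : ℂ) * sm p (n + 1) q (m + 1) (kl cl L c) (a - a') = 0 := by
  have : NeZero r := ⟨h.hr.pos.ne'⟩
  have hall : ∀ t ∈ Finset.range q, t ≠ 0 → ∀ y y' : ZMod r,
      sm p (n + 1) q (m + 1) (kl cl L y) ((a - a').1, (a - a').2 + (t : ℤ) * (q : ℤ) ^ m) =
      sm p (n + 1) q (m + 1) (kl cl L y') ((a - a').1, (a - a').2 + (t : ℤ) * (q : ℤ) ^ m) := by
    intro t ht ht0 y y'
    obtain ⟨a1, ha1, hb2, hb3⟩ := h.line a ha (t : ℤ)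
    refine rel_t (a := a) (a1 := a1) (t := (t : ℤ)) h ha1 ha' ?_ hb2 hb3 y y'
    -- `a1 ≠ a`
    have hqm : ((q : ℤ) ^ m) ≠ 0 := pow_ne_zero _ (by exact_mod_cast h.hq.pos.ne')
    have hne1 : a1 ≠ a := by
      rintro rfl
      have e : a1.2 - (a1.2 + (t : ℤ) * (q : ℤ) ^ m) = -((t : ℤ) * (q : ℤ) ^ m) := by ring
      rw [e, dvd_neg, pow_succ, mul_comm (t : ℤ), mul_dvd_mul_iff_left hqm] at hb3
      have h5 : q ∣ t := by exact_mod_cast hb3
      exact absurd (Nat.le_of_dvd (Nat.pos_of_ne_zero ht0) h5) (not_le.2 (Finset.mem_range.1 ht))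
    have h6 : (q : ℤ) ^ m ∣ a1.2 - a.2 := by
      have e : a1.2 - a.2 = (a1.2 - (a.2 + (t : ℤ) * (q : ℤ) ^ m)) + (t : ℤ) * (q : ℤ) ^ m := by ring
      rw [e]
      exact dvd_add ((pow_dvd_pow _ (Nat.le_succ m)).trans hb3) (dvd_mul_left _ _)
    rw [← hca]
    exact (h.rain a1 ha1 a ha hne1 ((pow_dvd_pow _ (Nat.le_succ n)).trans hb2) h6).2.2
  have h1 := key (c0 := c0) h hc (g := a - a') fun t ht ht0 => hall t ht ht0 c0 c
  -- the colours `≠ c0` have the same sum at `a - a'`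
  have hy : ∀ y : ZMod r, y ≠ c0 → sm p (n + 1) q (m + 1) (kl cl L y) (a - a') =
      sm p (n + 1) q (m + 1) (kl cl L c) (a - a') := by
    intro y hy0
    have e1 := hall 1 (Finset.mem_range.2 h.hq.one_lt) one_ne_zero y c
    have hS : ∀ z : ZMod r, z ≠ c0 → ∀ l ∈ kl cl L z, (q : ℤ) ∣ l.2 - e0 := by
      intro z hz l hl
      obtain ⟨h2, h3⟩ := mem_kl.1 hl
      exact (h.cen l h2 (by rw [h3]; exact hz)).2
    have e2 := sm_move (p := p) (N := n + 1) (m := m) h.hp.pos h.hq.pos (hS y hy0) (g := a - a')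
      (g' := ((a - a').1, (a - a').2 + ((1 : ℕ) : ℤ) * (q : ℤ) ^ m)) (s := ((1 : ℕ) : ℤ))
      (by simp) (by simp)
    have e3 := sm_move (p := p) (N := n + 1) (m := m) h.hp.pos h.hq.pos (hS c hc) (g := a - a')
      (g' := ((a - a').1, (a - a').2 + ((1 : ℕ) : ℤ) * (q : ℤ) ^ m)) (s := ((1 : ℕ) : ℤ))
      (by simp) (by simp)
    rw [e2, e3] at e1
    exact mul_left_cancel₀ (ec_ne_zero _ _) e1
  have h2 := h.cp.a.1 a ha a' ha' hne hca
  rw [← sm_kl cl L, ← Finset.add_sum_erase _ _ (Finset.mem_univ c0)] at h2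
  rw [Finset.sum_congr rfl fun y hy0 => hy y (Finset.ne_of_mem_erase hy0), Finset.sum_const,
    Finset.card_erase_of_mem (Finset.mem_univ _), Finset.card_univ, ZMod.card, nsmul_eq_mul,
    Nat.cast_sub h.hr.pos, Nat.cast_one] at h2
  rw [h1]
  linear_combination h2

/-- Field `D`. -/
theorem rowD' (h : Row p n q m ca cl A L d0 e0 c0 k b)
    {a a' : ℤ × ℤ} (ha : a ∈ A) (ha' : a' ∈ A) (hca : ca a = ca a')
    (hd : ¬ (q : ℤ) ^ m ∣ a.2 - a'.2) :
    sm p (n + 1) q (m + 1) (QQ q cl L e0 c0) (a - a') = 0 := by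
  have hne : a ≠ a' := by
    rintro rfl
    exact hd (by simp)
  have e := h.cp.a.1 a ha a' ha' hne hca
  rw [← Pool.Agent.Helper48.PU.ws_one] at e
  have e2 := ws_res2 h.hp h.hq h.pq (j := 1) (Nat.succ_le_succ (Nat.zero_le m)) (d := a - a')
    (by rw [Nat.succ_sub_one]; exact hd) e (e0 + 1)
  rw [Pool.Agent.Helper48.PU.ws_one, pow_one, ← QQ_eq h] at e2
  exact e2

/-- The number of points of a row. -/
theorem row_card (h : Row p n q m ca cl A L d0 e0 c0 k b) {a : ℤ × ℤ} (ha : a ∈ A) :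
    (A.filter fun a1 => (p : ℤ) ^ (n + 1) ∣ a1.1 - a.1 ∧ (q : ℤ) ^ m ∣ a1.2 - a.2).card = q := by
  set S := A.filter fun a1 => (p : ℤ) ^ (n + 1) ∣ a1.1 - a.1 with hS
  have h1 : (A.filter fun a1 => (p : ℤ) ^ (n + 1) ∣ a1.1 - a.1 ∧ (q : ℤ) ^ m ∣ a1.2 - a.2).card =
      c2 S (q ^ m) a.2 := by
    unfold c2
    rw [hS, Finset.filter_filter, Nat.cast_pow]
  rw [h1, c2_split h.hq.pos]
  have h2 : ∀ s ∈ Finset.range q, c2 S (q ^ (m + 1)) (a.2 + (s : ℤ) * (q : ℤ) ^ m) = 1 := by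
    intro s _
    unfold c2
    rw [Finset.card_eq_one]
    obtain ⟨b1, hb1, hb2, hb3⟩ := h.line a ha (s : ℤ)
    refine ⟨b1, ?_⟩
    rw [Finset.eq_singleton_iff_unique_mem]
    refine ⟨?_, ?_⟩
    · rw [Finset.mem_filter, hS, Finset.mem_filter, Nat.cast_pow]
      exact ⟨⟨hb1, hb2⟩, hb3⟩
    · intro b2 hb
      rw [Finset.mem_filter, hS, Finset.mem_filter, Nat.cast_pow] at hb
      obtain ⟨⟨h3, h4⟩, h5⟩ := hb
      by_contra hne
      have e1 : (q : ℤ) ^ (m + 1) ∣ b2.2 - b1.2 := by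
        have := dvd_sub h5 hb3
        rwa [sub_sub_sub_cancel_right] at this
      have e2 : (p : ℤ) ^ (n + 1) ∣ b2.1 - b1.1 := by
        have := dvd_sub h4 hb2
        rwa [sub_sub_sub_cancel_right] at this
      exact (h.rain b2 h3 b1 hb1 hne ((pow_dvd_pow _ (Nat.le_succ n)).trans e2)
        ((pow_dvd_pow _ (Nat.le_succ m)).trans e1)).2.1 e1
  rw [Finset.sum_congr rfl h2, Finset.sum_const, Finset.card_range, smul_eq_mul, mul_one]

/-- Sums over `A` of functions which are constant on the rows. -/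
theorem row_sum (h : Row p n q m ca cl A L d0 e0 c0 k b) {X : Finset (ℤ × ℤ)} (hXA : X ⊆ A)
    (hX : ∀ z ∈ X, ∀ z' ∈ X, (p : ℤ) ^ (n + 1) ∣ z'.1 - z.1 → (q : ℤ) ^ m ∣ z'.2 - z.2 → z' = z)
    {F : ℤ × ℤ → ℂ}
    (hF : ∀ z z' : ℤ × ℤ, (p : ℤ) ^ (n + 1) ∣ z'.1 - z.1 → (q : ℤ) ^ m ∣ z'.2 - z.2 → F z' = F z)
    (hex : ∀ z' ∈ A, ∃ z ∈ X, (p : ℤ) ^ (n + 1) ∣ z'.1 - z.1 ∧ (q : ℤ) ^ m ∣ z'.2 - z.2) :
    ∑ c ∈ A, F c = (q : ℂ) * ∑ c ∈ X, F c := by
  classical
  have h1 : ∀ z ∈ X, ∑ z' ∈ A, (if ((p : ℤ) ^ (n + 1) ∣ z'.1 - z.1 ∧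
      (q : ℤ) ^ m ∣ z'.2 - z.2) then F z' else 0) = (q : ℂ) * F z := by
    intro z hz
    rw [← Finset.sum_filter, Finset.sum_congr rfl fun z' hz' => hF z z'
      (Finset.mem_filter.1 hz').2.1 (Finset.mem_filter.1 hz').2.2, Finset.sum_const,
      row_card h (hXA hz), nsmul_eq_mul]
  rw [Finset.mul_sum, ← Finset.sum_congr rfl h1, Finset.sum_comm]
  refine Finset.sum_congr rfl fun z' hz' => ?_
  obtain ⟨z, hz, h2, h3⟩ := hex z' hz'
  rw [Finset.sum_eq_single z, if_pos ⟨h2, h3⟩]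
  · intro z1 hz1 hne
    rw [if_neg]
    rintro ⟨h4, h5⟩
    have e1 : (p : ℤ) ^ (n + 1) ∣ z1.1 - z.1 := by
      have := dvd_sub h2 h4
      rwa [sub_sub_sub_cancel_left] at this
    have e2 : (q : ℤ) ^ m ∣ z1.2 - z.2 := by
      have := dvd_sub h3 h5
      rwa [sub_sub_sub_cancel_left] at this
    exact hne (hX z hz z1 hz1 e1 e2)
  · intro hc
    exact absurd hz hc

/-- The representatives of the rows: top `q`-digit zero. -/
def A00 (q m : ℕ) (A : Finset (ℤ × ℤ)) : Finset (ℤ × ℤ) :=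
  A.filter fun a => a.2 % (q : ℤ) ^ (m + 1) < (q : ℤ) ^ m

theorem A00_lev {q m : ℕ} (hq : 0 < q) {A : Finset (ℤ × ℤ)} {z z' : ℤ × ℤ} (hz : z ∈ A00 q m A)
    (hz' : z' ∈ A00 q m A) (h : (q : ℤ) ^ m ∣ z.2 - z'.2) : (q : ℤ) ^ (m + 1) ∣ z.2 - z'.2 := by
  have hq' : (0 : ℤ) < (q : ℤ) := by exact_mod_cast hq
  have h1 := (Finset.mem_filter.1 hz).2
  have h2 := (Finset.mem_filter.1 hz').2
  set M : ℤ := (q : ℤ) ^ m with hM
  set N : ℤ := (q : ℤ) ^ (m + 1) with hN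
  have hM0 : 0 < M := pow_pos hq' m
  have hN0 : 0 < N := pow_pos hq' (m + 1)
  have hMN : M ∣ N := pow_dvd_pow _ (Nat.le_succ m)
  have e1 : 0 ≤ z.2 % N := Int.emod_nonneg _ hN0.ne'
  have e2 : 0 ≤ z'.2 % N := Int.emod_nonneg _ hN0.ne'
  have e3 : z.2 = z.2 % N + N * (z.2 / N) := (Int.emod_add_mul_ediv _ _).symm
  have e4 : z'.2 = z'.2 % N + N * (z'.2 / N) := (Int.emod_add_mul_ediv _ _).symm
  have e5 : M ∣ z.2 % N - z'.2 % N := by
    have e6 : z.2 % N - z'.2 % N = (z.2 - z'.2) - N * (z.2 / N - z'.2 / N) := by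
      linear_combination e4 - e3
    rw [e6]
    exact dvd_sub h (hMN.mul_right _)
  have e7 : z.2 % N - z'.2 % N = 0 := by
    refine Int.eq_zero_of_abs_lt_dvd e5 ?_
    rw [abs_lt]
    constructor <;> linarith
  have e8 : z.2 - z'.2 = N * (z.2 / N - z'.2 / N) := by linear_combination e3 - e4 + e7
  rw [e8]
  exact dvd_mul_right _ _

theorem A00_ex (h : Row p n q m ca cl A L d0 e0 c0 k b) {a : ℤ × ℤ} (ha : a ∈ A) :
    ∃ z ∈ A00 q m A, (p : ℤ) ^ (n + 1) ∣ a.1 - z.1 ∧ (q : ℤ) ^ m ∣ a.2 - z.2 := by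
  have hq' : (0 : ℤ) < (q : ℤ) := by exact_mod_cast h.hq.pos
  have hM0 : 0 < (q : ℤ) ^ m := pow_pos hq' m
  have hN0 : 0 < (q : ℤ) ^ (m + 1) := pow_pos hq' (m + 1)
  obtain ⟨z, hz, h1, h2⟩ := h.line a ha (-(a.2 % (q : ℤ) ^ (m + 1) / (q : ℤ) ^ m))
  have h3 : (q : ℤ) ^ m ∣ z.2 - a.2 := by
    have e : z.2 - a.2 = (z.2 - (a.2 + -(a.2 % (q : ℤ) ^ (m + 1) / (q : ℤ) ^ m) * (q : ℤ) ^ m)) +
        -(a.2 % (q : ℤ) ^ (m + 1) / (q : ℤ) ^ m) * (q : ℤ) ^ m := by ring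
    rw [e]
    exact dvd_add ((pow_dvd_pow _ (Nat.le_succ m)).trans h2) (dvd_mul_left _ _)
  refine ⟨z, ?_, by rw [← dvd_neg, neg_sub]; exact h1, by rw [← dvd_neg, neg_sub]; exact h3⟩
  unfold A00
  rw [Finset.mem_filter]
  refine ⟨hz, ?_⟩
  have e1 : a.2 + -(a.2 % (q : ℤ) ^ (m + 1) / (q : ℤ) ^ m) * (q : ℤ) ^ m =
      a.2 % (q : ℤ) ^ (m + 1) % (q : ℤ) ^ m + (q : ℤ) ^ (m + 1) * (a.2 / (q : ℤ) ^ (m + 1)) := by
    have e3 := Int.emod_add_mul_ediv a.2 ((q : ℤ) ^ (m + 1))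
    have e4 := Int.emod_add_mul_ediv (a.2 % (q : ℤ) ^ (m + 1)) ((q : ℤ) ^ m)
    linear_combination -e3 - e4
  have e2 : z.2 % (q : ℤ) ^ (m + 1) = a.2 % (q : ℤ) ^ (m + 1) % (q : ℤ) ^ m := by
    have e3 : z.2 % (q : ℤ) ^ (m + 1) = (a.2 % (q : ℤ) ^ (m + 1) % (q : ℤ) ^ m +
        (q : ℤ) ^ (m + 1) * (a.2 / (q : ℤ) ^ (m + 1))) % (q : ℤ) ^ (m + 1) := by
      rw [← e1]
      exact (Int.modEq_iff_dvd.2 h2).symm
    rw [e3, Int.add_mul_emod_self_left]
    apply Int.emod_eq_of_lt (Int.emod_nonneg _ hM0.ne')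
    exact lt_of_lt_of_le (Int.emod_lt_of_pos _ hM0)
      (Int.le_of_dvd hN0 (pow_dvd_pow _ (Nat.le_succ m)))
  rw [e2]
  exact Int.emod_lt_of_pos _ hM0

theorem A00_sum (h : Row p n q m ca cl A L d0 e0 c0 k b) {F : ℤ × ℤ → ℂ}
    (hF : ∀ z z' : ℤ × ℤ, (p : ℤ) ^ (n + 1) ∣ z'.1 - z.1 → (q : ℤ) ^ m ∣ z'.2 - z.2 → F z' = F z) :
    ∑ c ∈ A, F c = (q : ℂ) * ∑ c ∈ A00 q m A, F c := by
  refine row_sum h (Finset.filter_subset _ _) ?_ hF fun z' hz' => A00_ex h hz'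
  intro z hz z' hz' h1 h2
  by_contra hne
  have h3 := A00_lev h.hq.pos hz' hz h2
  exact (h.rain z' (Finset.mem_filter.1 hz').1 z (Finset.mem_filter.1 hz).1 hne
    ((pow_dvd_pow _ (Nat.le_succ n)).trans h1) h2).2.1 h3

/-- Move along a row. -/
theorem move_row (h : Row p n q m ca cl A L d0 e0 c0 k b) {a z z' : ℤ × ℤ}
    (h1 : (p : ℤ) ^ (n + 1) ∣ z'.1 - z.1) (h2 : (q : ℤ) ^ m ∣ z'.2 - z.2)
    (h3 : sm p (n + 1) q (m + 1) (QQ q cl L e0 c0) (a - z') = 0) :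
    sm p (n + 1) q (m + 1) (QQ q cl L e0 c0) (a - z) = 0 := by
  have hQd : ∀ l ∈ QQ q cl L e0 c0, (q : ℤ) ∣ l.2 - (e0 + 1) :=
    fun l hl => (Finset.mem_filter.1 hl).2
  obtain ⟨s, hs⟩ := h2
  have e1 := sm_move (p := p) (N := n + 1) (m := m) h.hp.pos h.hq.pos hQd (g := a - z')
    (g' := a - z) (s := s) (by
      rw [Prod.fst_sub, Prod.fst_sub]
      have e : a.1 - z.1 - (a.1 - z'.1) = z'.1 - z.1 := by ring
      rw [e]
      exact h1) (by
      rw [Prod.snd_sub, Prod.snd_sub]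
      have e : a.2 - z.2 - (a.2 - z'.2 + s * (q : ℤ) ^ m) = 0 := by linear_combination hs
      rw [e]
      exact dvd_zero _)
  rw [e1, h3, mul_zero]

/-- Move along a row, first argument. -/
theorem move_row' (h : Row p n q m ca cl A L d0 e0 c0 k b) {a z z' : ℤ × ℤ}
    (h1 : (p : ℤ) ^ (n + 1) ∣ z'.1 - z.1) (h2 : (q : ℤ) ^ m ∣ z'.2 - z.2)
    (h3 : sm p (n + 1) q (m + 1) (QQ q cl L e0 c0) (z' - a) = 0) :
    sm p (n + 1) q (m + 1) (QQ q cl L e0 c0) (z - a) = 0 := by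
  have hQd : ∀ l ∈ QQ q cl L e0 c0, (q : ℤ) ∣ l.2 - (e0 + 1) :=
    fun l hl => (Finset.mem_filter.1 hl).2
  obtain ⟨s, hs⟩ := h2
  have e1 := sm_move (p := p) (N := n + 1) (m := m) h.hp.pos h.hq.pos hQd (g := z' - a)
    (g' := z - a) (s := -s) (by
      rw [Prod.fst_sub, Prod.fst_sub]
      have e : z.1 - a.1 - (z'.1 - a.1) = -(z'.1 - z.1) := by ring
      rw [e]
      exact (dvd_neg).2 h1) (by
      rw [Prod.snd_sub, Prod.snd_sub]
      have e : z.2 - a.2 - (z'.2 - a.2 + -s * (q : ℤ) ^ m) = 0 := by linear_combination -hs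
      rw [e]
      exact dvd_zero _)
  rw [e1, h3, mul_zero]

/-- The colour `x` occurs in the row of `z`. -/
def occ (p n q m : ℕ) {r : ℕ} (ca : ℤ × ℤ → ZMod r) (A : Finset (ℤ × ℤ)) (z : ℤ × ℤ)
    (x : ZMod r) : Prop :=
  ∃ b ∈ A, (p : ℤ) ^ (n + 1) ∣ b.1 - z.1 ∧ (q : ℤ) ^ m ∣ b.2 - z.2 ∧ ca b = x

/-- The relation. -/
def RR (p n q m : ℕ) {r : ℕ} (ca : ℤ × ℤ → ZMod r) (A : Finset (ℤ × ℤ)) (z z' : ℤ × ℤ) : Prop :=
  (q : ℤ) ^ (m + 1) ∣ z.2 - z'.2 ∧ ∀ x, occ p n q m ca A z x ↔ occ p n q m ca A z' x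

/-- The colours of a row: their number. -/
theorem occ_card (h : Row p n q m ca cl A L d0 e0 c0 k b) [NeZero r] {z : ℤ × ℤ} (hz : z ∈ A)
    [DecidablePred (occ p n q m ca A z)] :
    (Finset.univ.filter fun x => occ p n q m ca A z x).card = q := by
  classical
  refine Eq.trans ?_ (row_card h hz)
  symm
  refine Finset.card_bij (fun b _ => ca b) ?_ ?_ ?_
  · intro b hb
    obtain ⟨h1, h2, h3⟩ := Finset.mem_filter.1 hb
    exact Finset.mem_filter.2 ⟨Finset.mem_univ _, b, h1, h2, h3, rfl⟩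
  · intro b hb b' hb' hc
    obtain ⟨h1, h2, h3⟩ := Finset.mem_filter.1 hb
    obtain ⟨h1', h2', h3'⟩ := Finset.mem_filter.1 hb'
    by_contra hne
    have e1 : (p : ℤ) ^ (n + 1) ∣ b.1 - b'.1 := by
      have := dvd_sub h2 h2'
      rwa [sub_sub_sub_cancel_right] at this
    have e2 : (q : ℤ) ^ m ∣ b.2 - b'.2 := by
      have := dvd_sub h3 h3'
      rwa [sub_sub_sub_cancel_right] at this
    exact (h.rain b h1 b' h1' hne ((pow_dvd_pow _ (Nat.le_succ n)).trans e1) e2).2.2 hc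
  · intro x hx
    obtain ⟨_, b, h1, h2, h3, h4⟩ := Finset.mem_filter.1 hx
    exact ⟨b, Finset.mem_filter.2 ⟨h1, h2, h3⟩, h4⟩

/-- Different colour sets: some colour of the first row does not occur in the second. -/
theorem occ_diff (h : Row p n q m ca cl A L d0 e0 c0 k b) {z z' : ℤ × ℤ} (hz : z ∈ A)
    (hz' : z' ∈ A) (hne : ¬ ∀ x, occ p n q m ca A z x ↔ occ p n q m ca A z' x) :
    ∃ x, occ p n q m ca A z x ∧ ¬ occ p n q m ca A z' x := by
  classical
  have : NeZero r := ⟨h.hr.pos.ne'⟩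
  by_contra hcon
  push Not at hcon
  apply hne
  have h1 : (Finset.univ.filter fun x => occ p n q m ca A z x) ⊆
      Finset.univ.filter fun x => occ p n q m ca A z' x := by
    intro x hx
    exact Finset.mem_filter.2 ⟨Finset.mem_univ _, hcon x (Finset.mem_filter.1 hx).2⟩
  have h2 := Finset.eq_of_subset_of_card_le h1 (by rw [occ_card h hz, occ_card h hz'])
  intro x
  constructor
  · exact hcon x
  · intro hx
    have h3 : x ∈ Finset.univ.filter fun x => occ p n q m ca A z' x :=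
      Finset.mem_filter.2 ⟨Finset.mem_univ _, hx⟩
    rw [← h2] at h3
    exact (Finset.mem_filter.1 h3).2

/-- Between the classes. -/
theorem row_ker0 (h : Row p n q m ca cl A L d0 e0 c0 k b) {c : ZMod r} (hc : c ≠ c0)
    {z z' : ℤ × ℤ} (hz : z ∈ A00 q m A) (hz' : z' ∈ A00 q m A)
    (hR : ¬ RR p n q m ca A z z') :
    sm p (n + 1) q (m + 1) (QQ q cl L e0 c0) (z - z') = 0 := by
  have hzA := (Finset.mem_filter.1 hz).1
  have hzA' := (Finset.mem_filter.1 hz').1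
  by_cases hm : (q : ℤ) ^ m ∣ z.2 - z'.2
  · have h1 := A00_lev h.hq.pos hz hz' hm
    have h2 : ¬ ∀ x, occ p n q m ca A z x ↔ occ p n q m ca A z' x := fun h3 => hR ⟨h1, h3⟩
    obtain ⟨x, ⟨a, ha, ha1, ha2, ha3⟩, hx⟩ := occ_diff h hzA hzA' h2
    have h3 := rowN h hc ha hzA' (by
      intro b1 hb1 h4 h5 h6
      exact hx ⟨b1, hb1, h4, h5, h6.trans ha3⟩)
    exact move_row' h ha1 ha2 h3
  · by_cases hx : occ p n q m ca A z' (ca z)
    · obtain ⟨a, ha, ha1, ha2, ha3⟩ := hx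
      refine move_row h ha1 ha2 (rowD' h hzA ha ha3.symm ?_)
      intro h3
      apply hm
      have e : z.2 - z'.2 = (z.2 - a.2) + (a.2 - z'.2) := by ring
      rw [e]
      exact dvd_add h3 ha2
    · refine rowN h hc hzA hzA' ?_
      intro b1 hb1 h4 h5 h6
      exact hx ⟨b1, hb1, h4, h5, h6⟩

/-- The weights. -/
def wQC (q r : ℕ) (Q : Finset (ℤ × ℤ)) [DecidablePred (· ∈ Q)] : ℤ × ℤ → ℤ :=
  fun l => if l ∈ Q then (q : ℤ) else (r : ℤ)

theorem ws_QC {p N q M q' r' : ℕ} {Q C : Finset (ℤ × ℤ)} [DecidablePred (· ∈ Q)]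
    [DecidableEq (ℤ × ℤ)] (hd : Disjoint Q C) (d : ℤ × ℤ) :
    ws p N q M (Q ∪ C) (wQC q' r' Q) d =
      (q' : ℂ) * sm p N q M Q d + (r' : ℂ) * sm p N q M C d := by
  unfold ws sm
  rw [Finset.sum_union hd, Finset.mul_sum, Finset.mul_sum]
  congr 1
  · refine Finset.sum_congr rfl fun l hl => ?_
    unfold wQC
    rw [if_pos hl]
    push_cast
    rfl
  · refine Finset.sum_congr rfl fun l hl => ?_
    unfold wQC
    rw [if_neg (fun h2 => Finset.disjoint_left.1 hd h2 hl)]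
    push_cast
    rfl

theorem QC_disj {c : ZMod r} (hc : c ≠ c0) : Disjoint (QQ q cl L e0 c0) (kl cl L c) := by
  rw [Finset.disjoint_left]
  intro l h1 h2
  exact hc ((mem_kl.1 h2).2.symm.trans (mem_kl.1 (Finset.mem_filter.1 h1).1).2)

/-- Different colours of the representatives: the relation at all offsets. -/
theorem ker_off (h : Row p n q m ca cl A L d0 e0 c0 k b) {c : ZMod r} (hc : c ≠ c0)
    {z z' : ℤ × ℤ} (hz : z ∈ A00 q m A) (hz' : z' ∈ A00 q m A)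
    (hR : RR p n q m ca A z z') (hcz : ca z ≠ ca z') {t : ℤ} (ht : ¬ (q : ℤ) ∣ t) :
    (q : ℂ) * (ec q t * sm p (n + 1) q (m + 1) (QQ q cl L e0 c0) (z - z')) +
      (r : ℂ) * sm p (n + 1) q (m + 1) (kl cl L c) (z - z') = 0 := by
  classical
  have hzA := (Finset.mem_filter.1 hz).1
  have hzA' := (Finset.mem_filter.1 hz').1
  have hq0 : (q : ℤ) ≠ 0 := by exact_mod_cast h.hq.pos.ne'
  obtain ⟨a, ha, ha1, ha2, ha3⟩ := (hR.2 (ca z)).1 ⟨z, hzA, by simp, by simp, rfl⟩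
  have hza : z ≠ a := by
    rintro rfl
    have h3 := A00_lev h.hq.pos hz hz' ha2
    have h4 : z ≠ z' := fun h5 => hcz (by rw [h5])
    exact (h.rain z hzA z' hzA' h4 ((pow_dvd_pow _ (Nat.le_succ n)).trans ha1) ha2).2.1 h3
  have hz'a : a ≠ z' := by
    rintro rfl
    exact hcz ha3.symm
  have h1 := rowS h hc hzA ha hza ha3.symm
  obtain ⟨s, hs⟩ := ha2
  have hqs : ¬ (q : ℤ) ∣ s := by
    rintro ⟨u, rfl⟩
    refine (h.rain a ha z' hzA' hz'a ((pow_dvd_pow _ (Nat.le_succ n)).trans ha1) ⟨_, hs⟩).2.1 ?_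
    rw [hs, pow_succ]
    exact ⟨u, by ring⟩
  rw [← ws_QC (QC_disj hc)] at h1
  have h2 : ws p (n + 1) q (m + 1) (QQ q cl L e0 c0 ∪ kl cl L c) (wQC q r (QQ q cl L e0 c0))
      ((z - z').1, (z - z').2 + t * (q : ℤ) ^ m) = 0 := by
    refine ws_type (d := z - a) h.hp h.hq h.pq ?_ ?_ h1
    · intro i hi
      have e : (z - a).1 = (z - z').1 - (a.1 - z'.1) := by
        rw [Prod.fst_sub, Prod.fst_sub]
        ring
      have e2 : (p : ℤ) ^ i ∣ a.1 - z'.1 := (pow_dvd_pow _ hi).trans ha1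
      rw [e]
      exact dvd_sub_left e2
    · intro j hj
      have e : (z - a).2 = (z.2 - z'.2) - (q : ℤ) ^ m * s := by
        rw [Prod.snd_sub, ← hs]
        ring
      have e1 : (z - z').2 + t * (q : ℤ) ^ m = (z.2 - z'.2) + (q : ℤ) ^ m * t := by
        rw [Prod.snd_sub]
        ring
      rw [e, e1, dvd_sub_right ((pow_dvd_pow _ hj).trans hR.1),
        dvd_add_right ((pow_dvd_pow _ hj).trans hR.1)]
      rcases Nat.lt_or_ge m j with hmj | hmj
      · have hj' : j = m + 1 := by omega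
        rw [hj', pow_succ, mul_dvd_mul_iff_left (pow_ne_zero _ hq0),
          mul_dvd_mul_iff_left (pow_ne_zero _ hq0)]
        exact ⟨fun h5 => absurd h5 hqs, fun h5 => absurd h5 ht⟩
      · have e3 := pow_dvd_pow (q : ℤ) hmj
        exact ⟨fun _ => e3.mul_right _, fun _ => e3.mul_right _⟩
  rw [ws_QC (QC_disj hc)] at h2
  have hQd : ∀ l ∈ QQ q cl L e0 c0, (q : ℤ) ∣ l.2 - (e0 + 1) :=
    fun l hl => (Finset.mem_filter.1 hl).2
  have hCd : ∀ l ∈ kl cl L c, (q : ℤ) ∣ l.2 - e0 := by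
    intro l hl
    obtain ⟨h2, h3⟩ := mem_kl.1 hl
    exact (h.cen l h2 (by rw [h3]; exact hc)).2
  rw [sm_move (p := p) (N := n + 1) (m := m) h.hp.pos h.hq.pos hQd (g := z - z') (s := t)
      (by simp) (by simp),
    sm_move (p := p) (N := n + 1) (m := m) h.hp.pos h.hq.pos hCd (g := z - z') (s := t)
      (by simp) (by simp)] at h2
  have e4 : ec q (t * (e0 + 1)) = ec q t * ec q (t * e0) := by
    rw [← ec_add]
    congr 1
    ring
  rw [e4] at h2
  have e5 : ec q (t * e0) * ((q : ℂ) * (ec q t *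
      sm p (n + 1) q (m + 1) (QQ q cl L e0 c0) (z - z')) +
      (r : ℂ) * sm p (n + 1) q (m + 1) (kl cl L c) (z - z')) = 0 := by
    rw [← h2]
    ring
  exact (mul_eq_zero.1 e5).resolve_left (ec_ne_zero _ _)

open Classical in
/-- The orientation. -/
noncomputable def sgf (p n q m : ℕ) {r : ℕ} (ca : ℤ × ℤ → ZMod r) (A : Finset (ℤ × ℤ)) :
    ℤ × ℤ → ℤ :=
  fun z => if q = 2 ∧ ∃ x, occ p n q m ca A z x ∧ x.val < (ca z).val then -1 else 1

theorem sgf_one (z : ℤ × ℤ) : sgf p n q m ca A z = 1 ∨ sgf p n q m ca A z = -1 := by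
  unfold sgf
  split_ifs
  · exact Or.inr rfl
  · exact Or.inl rfl

theorem row_ker (h : Row p n q m ca cl A L d0 e0 c0 k b) {c : ZMod r} (hc : c ≠ c0)
    {z z' : ℤ × ℤ} (hz : z ∈ A00 q m A) (hz' : z' ∈ A00 q m A) (hne : z ≠ z')
    (hR : RR p n q m ca A z z') :
    (q : ℂ) * sm p (n + 1) q (m + 1) (QQ q cl L e0 c0) (z - z') =
      -((sgf p n q m ca A z * sgf p n q m ca A z' : ℤ) : ℂ) *
        ((r : ℂ) * sm p (n + 1) q (m + 1) (kl cl L c) (z - z')) := by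
  classical
  have : NeZero r := ⟨h.hr.pos.ne'⟩
  have hzA := (Finset.mem_filter.1 hz).1
  have hzA' := (Finset.mem_filter.1 hz').1
  by_cases hcz : ca z = ca z'
  · have h1 := rowS h hc hzA hzA' hne hcz
    have h2 : sgf p n q m ca A z * sgf p n q m ca A z' = 1 := by
      have h3 : sgf p n q m ca A z = sgf p n q m ca A z' := by
        unfold sgf
        rw [hcz]
        have h4 : (q = 2 ∧ ∃ x, occ p n q m ca A z x ∧ x.val < (ca z').val) ↔
            (q = 2 ∧ ∃ x, occ p n q m ca A z' x ∧ x.val < (ca z').val) := by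
          simp only [hR.2]
        by_cases h5 : (q = 2 ∧ ∃ x, occ p n q m ca A z' x ∧ x.val < (ca z').val)
        · rw [if_pos (h4.2 h5), if_pos h5]
        · rw [if_neg (fun h6 => h5 (h4.1 h6)), if_neg h5]
      rw [h3]
      rcases sgf_one (p := p) (n := n) (q := q) (m := m) (ca := ca) (A := A) z' with h5 | h5 <;>
        rw [h5] <;> norm_num
    rw [h2]
    push_cast
    linear_combination h1
  · by_cases hq2 : q = 2
    · have h1 := ker_off h hc hz hz' hR hcz (t := 1) (by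
        intro h5
        exact (Nat.prime_iff_prime_int.1 h.hq).not_isUnit (isUnit_of_dvd_one h5))
      have h2 : ec q 1 = -1 := by
        have h3 := ec_primitive h.hq.pos
        rw [hq2] at h3 ⊢
        exact h3.eq_neg_one_of_two_right
      have hocc : ∀ x, occ p n q m ca A z x → x = ca z ∨ x = ca z' := by
        intro x hx
        by_contra hcon
        push Not at hcon
        have h3 := occ_card h hzA
        have h4 : ({ca z, ca z', x} : Finset (ZMod r)) ⊆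
            Finset.univ.filter fun x => occ p n q m ca A z x := by
          intro y hy
          rw [Finset.mem_insert, Finset.mem_insert, Finset.mem_singleton] at hy
          refine Finset.mem_filter.2 ⟨Finset.mem_univ _, ?_⟩
          rcases hy with rfl | rfl | rfl
          · exact ⟨z, hzA, by simp, by simp, rfl⟩
          · exact (hR.2 _).2 ⟨z', hzA', by simp, by simp, rfl⟩
          · exact hx
        have h5 := Finset.card_le_card h4
        rw [h3, Finset.card_insert_of_notMem, Finset.card_pair (Ne.symm hcon.2)] at h5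
        · omega
        · rw [Finset.mem_insert, Finset.mem_singleton]
          push Not
          exact ⟨hcz, Ne.symm hcon.1⟩
      have hvne : (ca z).val ≠ (ca z').val := fun h5 => hcz (ZMod.val_injective r h5)
      have h3 : sgf p n q m ca A z * sgf p n q m ca A z' = -1 := by
        have o1 : occ p n q m ca A z (ca z) := ⟨z, hzA, by simp, by simp, rfl⟩
        have o2 : occ p n q m ca A z' (ca z') := ⟨z', hzA', by simp, by simp, rfl⟩
        rcases Nat.lt_or_gt_of_ne hvne with hlt | hlt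
        · have e1 : sgf p n q m ca A z = 1 := by
            unfold sgf
            rw [if_neg]
            rintro ⟨-, x, hx, hx2⟩
            rcases hocc x hx with rfl | rfl <;> omega
          have e2 : sgf p n q m ca A z' = -1 := by
            unfold sgf
            rw [if_pos]
            exact ⟨hq2, ca z, (hR.2 _).1 o1, hlt⟩
          rw [e1, e2]
          norm_num
        · have e1 : sgf p n q m ca A z = -1 := by
            unfold sgf
            rw [if_pos]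
            exact ⟨hq2, ca z', (hR.2 _).2 o2, hlt⟩
          have e2 : sgf p n q m ca A z' = 1 := by
            unfold sgf
            rw [if_neg]
            rintro ⟨-, x, hx, hx2⟩
            rcases hocc x ((hR.2 _).2 hx) with rfl | rfl <;> omega
          rw [e1, e2]
          norm_num
      rw [h3]
      rw [h2] at h1
      push_cast
      linear_combination -h1
    · have hq3 : 3 ≤ q := by
        have := h.hq.two_le
        omega
      have hd : ∀ t : ℕ, 0 < t → t < q → ¬ (q : ℤ) ∣ (t : ℤ) := by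
        intro t ht1 ht2 h5
        have h6 : q ∣ t := by exact_mod_cast h5
        exact absurd (Nat.le_of_dvd ht1 h6) (not_le.2 ht2)
      have h1 := ker_off h hc hz hz' hR hcz (t := 1) (by simpa using hd 1 one_pos (by omega))
      have h2 := ker_off h hc hz hz' hR hcz (t := 2) (by simpa using hd 2 two_pos (by omega))
      have h3 : ec q 2 = ec q 1 * ec q 1 := by
        rw [← ec_add]
        norm_num
      have h4 : ec q 1 ≠ 1 := by
        intro h5
        have h6 := (ec_eq_one_iff h.hq.pos 1).1 h5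
        exact (Nat.prime_iff_prime_int.1 h.hq).not_isUnit (isUnit_of_dvd_one h6)
      rw [h3] at h2
      have h5 : ((q : ℂ) * ec q 1 * (ec q 1 - 1)) *
          sm p (n + 1) q (m + 1) (QQ q cl L e0 c0) (z - z') = 0 := by
        linear_combination h2 - h1
      have h6 : ((q : ℂ) * ec q 1 * (ec q 1 - 1)) ≠ 0 := by
        refine mul_ne_zero (mul_ne_zero ?_ (ec_ne_zero _ _)) (sub_ne_zero.2 h4)
        exact_mod_cast h.hq.pos.ne'
      have h7 := (mul_eq_zero.1 h5).resolve_left h6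
      rw [h7] at h1 ⊢
      have h8 : (r : ℂ) * sm p (n + 1) q (m + 1) (kl cl L c) (z - z') = 0 := by
        linear_combination h1
      rw [h8]
      ring

end part1

/-- LEAF ROW, first half. -/
theorem leafRow1 : LeafRow1 := by
  classical
  intro p n q m r ca cl A L d0 e0 c0 k b h
  have : Fact (1 < r) := ⟨by have := h.r3; omega⟩
  have hc : c0 + 1 ≠ c0 := by
    intro h1
    exact one_ne_zero (add_eq_left.1 h1)
  have hone : ¬ (q : ℤ) ∣ e0 + 1 - e0 := by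
    intro h1
    have e : e0 + 1 - e0 = 1 := by ring
    rw [e] at h1
    exact (Nat.prime_iff_prime_int.1 h.hq).not_isUnit (isUnit_of_dvd_one h1)
  refine ⟨A00 q m A, QQ q cl L e0 c0, kl cl L (c0 + 1), RR p n q m ca A, sgf p n q m ca A, ?_⟩
  exact {
    hp := h.hp
    hq := h.hq
    hr := h.hr
    r3 := h.r3
    pq := h.pq
    rp := h.rp
    rq := h.rq
    cA := by
      have h1 := A00_sum h (F := fun _ => 1) (fun _ _ _ _ => rfl)
      rw [Finset.sum_const, Finset.sum_const, nsmul_eq_mul, nsmul_eq_mul, mul_one, mul_one,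
        h.K] at h1
      have h2 : p * q * r = q * (A00 q m A).card := by exact_mod_cast h1
      have h3 : q * (p * r) = q * (A00 q m A).card := by
        rw [← h2]
        ring
      exact (Nat.eq_of_mul_eq_mul_left h.hq.pos h3).symm
    cQ := by
      rw [← h.ck (e0 + 1) hone, QQ_eq h]
      rfl
    cC := h.cb _ hc
    kpos := h.kpos
    bpos := h.bpos
    eq := h.eq
    disj := QC_disj hc
    eqv := by
      refine ⟨?_, ?_, ?_⟩
      · intro z
        exact ⟨by simp, fun _ => Iff.rfl⟩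
      · rintro z z' ⟨h1, h2⟩
        exact ⟨by rw [← dvd_neg, neg_sub]; exact h1, fun x => (h2 x).symm⟩
      · rintro z z' z'' ⟨h1, h2⟩ ⟨h3, h4⟩
        refine ⟨?_, fun x => (h2 x).trans (h4 x)⟩
        have e : z.2 - z''.2 = (z.2 - z'.2) + (z'.2 - z''.2) := by ring
        rw [e]
        exact dvd_add h1 h3
    sg1 := sgf_one
    sg2 := by
      intro hq2 ρ
      unfold sgf
      rw [if_neg]
      exact fun h1 => hq2 h1.1
    lev := fun _ _ _ _ hR => hR.1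
    ortQ := by
      intro l hl l' hl' hne
      have hQ : ∀ z ∈ QQ q cl L e0 c0, z ∈ L ∧ cl z = c0 ∧ (q : ℤ) ∣ z.2 - (e0 + 1) :=
        fun z hz => ⟨(mem_kl.1 (Finset.mem_filter.1 hz).1).1, (mem_kl.1 (Finset.mem_filter.1 hz).1).2,
          (Finset.mem_filter.1 hz).2⟩
      have h1 : sm p (n + 1) q (m + 1) A (l - l') = 0 :=
        h.cp.l.1 l (hQ l hl).1 l' (hQ l' hl').1 hne ((hQ l hl).2.1.trans (hQ l' hl').2.1.symm)
      have h2 : (q : ℤ) ∣ (l - l').2 := by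
        have := dvd_sub (hQ l hl).2.2 (hQ l' hl').2.2
        rwa [sub_sub_sub_cancel_right] at this
      have h3 := A00_sum h (F := fun a => ch p (n + 1) q (m + 1) a (l - l')) (by
        intro z z' h4 h5
        unfold ch
        congr 1
        · refine ec_congr (pow_pos h.hp.pos _) ?_
          rw [← sub_mul, Nat.cast_pow]
          exact h4.mul_right _
        · refine ec_congr (pow_pos h.hq.pos _) ?_
          rw [← sub_mul, Nat.cast_pow, pow_succ]
          exact mul_dvd_mul h5 h2)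
      have h4 : (q : ℂ) * sm p (n + 1) q (m + 1) (A00 q m A) (l - l') = 0 := h3.symm.trans h1
      exact (mul_eq_zero.1 h4).resolve_left (by exact_mod_cast h.hq.pos.ne')
    ker := fun z hz z' hz' hne hR => row_ker h hc hz hz' hne hR
    ker0 := fun z hz z' hz' hR => row_ker0 h hc hz hz' hR }

end Pool.Agent.Helper73.PU
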