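import Mathlib
import Pool.Agent.Helper92.PU.Leaves

/-!
# PU, LEAF ROW: the interface between the analytic part and the combinatorial part

`Q` = the elements of `L` in one arm (`q`-digit `e0 + 1`), `C` = the elements of `L` of a colour `c ≠ c0`
(`q`-digit `e0`).  `RowD` collects what is used of `A`, `Q`, `C`.

PROOF of `False` from `RowD` (levels `n + 1`, `m + 1`).
(4) Let `k1 ≤ n + 1` be maximal with `p ^ k1 ∣ (l - l').1` for all `l ∈ Q`, `l' ∈ C` (then for all `l, l' ∈ Q ∪ C`).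
`J`: `a ≠ a' ∈ A`, `ca a = ca a'`, `q ^ m ∣ (a - a').2`, `p ^ (n + 1 - k1) ∣ (a - a').1` is impossible: by `S`
`q * sm Q (a - a') + r * sm C (a - a') = 0`, but `sm Q (a - a') = u * k * ec q (t * (e0 + 1))`, `sm C (a - a') = u * b * ec q (t * e0)`
(`(a - a').2 = t * q ^ m`), so `q * k * ec q t = - r * b`; norms: `q k = r b`, `ec q t = -1`, `q` even, `q = 2`, `p * 2 * r = 2 * q * k = 4 k`.
`k1 ≤ n`: otherwise (`J`) every `a ∈ A` is alone among the points of its colour in its class mod `q ^ m`; `D` and `I` with `a' = a` give `K k = q k ^ 2`: no.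
By `Z` and Galois (`k1 ≤ n`): `sm (kl ca A x) (p ^ k1, 1) = 0`, so the numbers of points of colour `x` in the classes modulo
`(p ^ (n - k1 + 1), q ^ (m + 1))` are additive on the blocks `(x + s p ^ (n - k1), y + t q ^ m)`; by `J` there is at most one point for each `s`;
so every `a ∈ A` has for every `s` a sibling `a' ∈ A` of the same colour, `a'.1 = a.1 + s p ^ (n - k1)` mod `p ^ (n - k1 + 1)`, `a'.2 = a.2` mod `q ^ (m + 1)`.
(5) From `S` for `a`, `a'` (`s = 1`): the weight `q` on `Q`, `r` on `C` is equidistributed over the classes modulo `p ^ (k1 + 1)` (inside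
the class modulo `p ^ k1`): `q |Q_x| + r |C_x| = q r`, so `(|Q_x|, |C_x|) = (r, 0)` or `(0, q)`. Take `x0` with `|Q_x0| = r`, `C_x0 = ∅`.
(6) `A' = {a ∈ A : a.2 % q ^ (m + 1) < q ^ m, a.1 % p ^ (n - k1 + 1) < p ^ (n - k1)}`; `|A'| ≥ r` by the siblings (injection of `A` into
`A' × p × q`), `sm Q_x0 (a - a') = 0` for `a ≠ a' ∈ A'`: if a point `b` of the row of `a'` has the colour of `a` and `q ^ m ∣ (a - b).2`: `p ^ (n - k1)`
does not divide `(a - b).1` (otherwise `p ^ (n - k1 + 1)` does, by the digits, against `J`), resolve `S` at `(a, b)` (weight `q` on `Q`, `r` on `C`, class `x0`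
modulo `p ^ (k1 + 1)`), move back from `b` to `a'` by a root of unity.  Otherwise `sm Q (a1 - a') = 0` for `a1 = a` and all its siblings `a1` (`N`, or `D` and
a root of unity): if `p ^ (n - k1)` does not divide `(a - a').1` resolve it; otherwise `p ^ (n - k1 + 1)` divides, and invert over the siblings
(`∑_s ec p (-s t)`).  `ortho_le` gives `|A'| ≤ r`; `(Q_x0, A')` is a spectral pair with `r` elements: `no_r`.
-/

set_option autoImplicit false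

namespace Pool.Agent.Helper73.PU

open Pool.Agent.Helper92.SS
open Pool.Agent.Helper92.PU
open Pool.Agent.Helper48.PU

structure RowD (p n q m : ℕ) {r : ℕ} (ca : ℤ × ℤ → ZMod r) (A Q C : Finset (ℤ × ℤ))
    (e0 : ℤ) (k b : ℕ) : Prop where
  hp : p.Prime
  hq : q.Prime
  hr : r.Prime
  r3 : 3 ≤ r
  pq : p ≠ q
  rp : r ≠ p
  rq : r ≠ q
  K : A.card = p * q * r
  line : ∀ a ∈ A, ∀ s : ℤ, ∃ b ∈ A, (p : ℤ) ^ (n + 1) ∣ b.1 - a.1 ∧
    (q : ℤ) ^ (m + 1) ∣ b.2 - (a.2 + s * (q : ℤ) ^ m)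
  rain : ∀ a ∈ A, ∀ b ∈ A, a ≠ b → (p : ℤ) ^ n ∣ a.1 - b.1 → (q : ℤ) ^ m ∣ a.2 - b.2 →
    (p : ℤ) ^ (n + 1) ∣ a.1 - b.1 ∧ ¬ (q : ℤ) ^ (m + 1) ∣ a.2 - b.2 ∧ ca a ≠ ca b
  kpos : 0 < k
  bpos : 0 < b
  Qc : Q.card = k
  Cc : C.card = b
  eq : p * q * r = q * k + r * b
  Qd : ∀ l ∈ Q, (q : ℤ) ∣ l.2 - (e0 + 1)
  Cd : ∀ l ∈ C, (q : ℤ) ∣ l.2 - e0
  S : ∀ a ∈ A, ∀ a' ∈ A, a ≠ a' → ca a = ca a' →
    (q : ℂ) * sm p (n + 1) q (m + 1) Q (a - a') + (r : ℂ) * sm p (n + 1) q (m + 1) C (a - a') = 0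
  N : ∀ a ∈ A, ∀ a' ∈ A, (∀ b ∈ A, (p : ℤ) ^ (n + 1) ∣ b.1 - a'.1 → (q : ℤ) ^ m ∣ b.2 - a'.2 →
    ca b ≠ ca a) → sm p (n + 1) q (m + 1) Q (a - a') = 0
  D : ∀ a ∈ A, ∀ a' ∈ A, ca a = ca a' → ¬ (q : ℤ) ^ m ∣ a.2 - a'.2 →
    sm p (n + 1) q (m + 1) Q (a - a') = 0
  I : ∀ a ∈ A, ∀ a' ∈ A, ca a = ca a' → (A.card : ℂ) * sm p (n + 1) q (m + 1) Q (a - a') =
    (q : ℂ) * ∑ c ∈ kl ca A (ca a), sm p (n + 1) q (m + 1) Q (a - c) *
      sm p (n + 1) q (m + 1) Q (c - a')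
  Z : ∀ x : ZMod r, ∀ l ∈ Q, ∀ l' ∈ C, sm p (n + 1) q (m + 1) (kl ca A x) (l - l') = 0

/-- Part 1 (helper73). -/
def RowPart1 : Prop := ∀ (p n q m r : ℕ) (ca cl : ℤ × ℤ → ZMod r) (A L : Finset (ℤ × ℤ))
  (d0 e0 : ℤ) (c0 : ZMod r) (k b : ℕ), Row p n q m ca cl A L d0 e0 c0 k b →
  ∃ Q C : Finset (ℤ × ℤ), RowD p n q m ca A Q C e0 k b

/-- Part 2 (helper51). -/
def RowPart2 : Prop := ∀ (p n q m r : ℕ) (ca : ℤ × ℤ → ZMod r) (A Q C : Finset (ℤ × ℤ))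
  (e0 : ℤ) (k b : ℕ), RowD p n q m ca A Q C e0 k b → False

theorem leafRow_of (h1 : RowPart1) (h2 : RowPart2) : LeafRow := by
  intro p n q m r ca cl A L d0 e0 c0 k b h
  obtain ⟨Q, C, hD⟩ := h1 p n q m r ca cl A L d0 e0 c0 k b h
  exact h2 p n q m r ca A Q C e0 k b hD

end Pool.Agent.Helper73.PU
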